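import Mathlib
import Pool.Agent.H80.GaussDefs
import Pool.Agent.H80.Gauss

open Pool.Agent.H80.Gauss

theorem Pool.Agent.Results.MP_e16cda_ag.ThreeNotEnough.result : ¬ Determines 1 3 := main
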